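import Pool.Agent.helper37.CZ.Spec

/-!
# Project cz, module CON: the determinants converge to a continuous function

(The file is called `CONN.lean`: `CON` is a reserved file name, Lean refuses it as the last part of a module name.)
-/

set_option autoImplicit false

open scoped Matrix Topology ComplexConjugate
open Filter

namespace Pool.Agent.CZ

lemma CON_tr {X : Type} [TopologicalSpace X] {α : X ≃ₜ X} {k : ℕ} {E : X → ℤ × Fin k → ℤ × Fin k → ℂ}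
    (hK : Ker α k E) (x : X) (m : ℕ) : ∀ p q : ℤ × Fin k,
    E ((α ^ (m : ℤ)) x) p q = E x (p.1 + m, p.2) (q.1 + m, q.2) := by
  induction m with
  | zero => intro p q; simp
  | succ m ih =>
    intro p q
    have h1 : (α ^ ((m + 1 : ℕ) : ℤ)) x = α ((α ^ (m : ℤ)) x) := by
      rw [Nat.cast_succ, add_comm, zpow_add, zpow_one]
      rfl
    rw [h1, hK.tr, ih]
    have e1 : (p.1 + 1 + (m : ℤ)) = p.1 + ((m + 1 : ℕ) : ℤ) := by push_cast; ring
    have e2 : (q.1 + 1 + (m : ℤ)) = q.1 + ((m + 1 : ℕ) : ℤ) := by push_cast; ring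
    dsimp only
    rw [e1, e2]

lemma CON_trace {X : Type} [TopologicalSpace X] {α : X ≃ₜ X} {k : ℕ} {E : X → ℤ × Fin k → ℤ × Fin k → ℂ}
    (hK : Ker α k E) (x : X) (N : ℕ) :
    (aN E x N).trace = ∑ m ∈ Finset.range N, trE E ((α ^ (m : ℤ)) x) := by
  unfold Matrix.trace trE
  rw [Fintype.sum_prod_type, Finset.sum_range]
  refine Finset.sum_congr rfl fun i _ => Finset.sum_congr rfl fun a _ => ?_
  rw [CON_tr hK]
  simp [Matrix.diag, aN]

lemma CON_geom {σ : ℝ} (h0 : 0 < σ) (h1 : σ < 1) (N : ℕ) :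
    ∑ i : Fin N, σ ^ (dd N (i : ℕ)) ≤ 2 * (1 - σ)⁻¹ := by
  rw [Fin.sum_univ_eq_sum_range (fun i => σ ^ (dd N i)) N]
  have hg : ∑ i ∈ Finset.range N, σ ^ i ≤ (1 - σ)⁻¹ := by
    rw [← tsum_geometric_of_lt_one h0.le h1]
    exact (summable_geometric_of_lt_one h0.le h1).sum_le_tsum _ (fun i _ => pow_nonneg h0.le i)
  have hr : ∑ i ∈ Finset.range N, σ ^ (N - 1 - i) = ∑ i ∈ Finset.range N, σ ^ i :=
    Finset.sum_range_reflect (fun i => σ ^ i) N
  calc ∑ i ∈ Finset.range N, σ ^ (dd N i) ≤ ∑ i ∈ Finset.range N, (σ ^ i + σ ^ (N - 1 - i)) := by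
        refine Finset.sum_le_sum fun i hi => ?_
        rw [Finset.mem_range] at hi
        have hp1 : 0 ≤ σ ^ i := pow_nonneg h0.le i
        have hp2 : 0 ≤ σ ^ (N - 1 - i) := pow_nonneg h0.le _
        unfold dd
        rcases le_total (i + 1) (N - i) with h | h
        · rw [min_eq_left h]
          have : σ ^ (i + 1) ≤ σ ^ i := pow_le_pow_of_le_one h0.le h1.le (Nat.le_succ i)
          linarith
        · rw [min_eq_right h]
          have : σ ^ (N - i) ≤ σ ^ (N - 1 - i) := pow_le_pow_of_le_one h0.le h1.le (by omega)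
          linarith
    _ = 2 * ∑ i ∈ Finset.range N, σ ^ i := by
        rw [Finset.sum_add_distrib, hr]
        ring
    _ ≤ 2 * (1 - σ)⁻¹ := by linarith

/-- sum over the double index -/
lemma CON_sum {σ : ℝ} (h0 : 0 < σ) (h1 : σ < 1) (N k : ℕ) :
    ∑ p : Fin N × Fin k, ∑ q : Fin N × Fin k, σ ^ (dd N (p.1 : ℕ) + dd N (q.1 : ℕ)) ≤
      ((k : ℝ) * (2 * (1 - σ)⁻¹)) ^ 2 := by
  have e1 : ∑ p : Fin N × Fin k, σ ^ (dd N (p.1 : ℕ)) = k * ∑ i : Fin N, σ ^ (dd N (i : ℕ)) := by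
    rw [Fintype.sum_prod_type, Finset.mul_sum]
    refine Finset.sum_congr rfl fun i _ => ?_
    simp
  have e2 : ∑ p : Fin N × Fin k, ∑ q : Fin N × Fin k, σ ^ (dd N (p.1 : ℕ) + dd N (q.1 : ℕ)) =
      (∑ p : Fin N × Fin k, σ ^ (dd N (p.1 : ℕ))) ^ 2 := by
    rw [sq, Finset.sum_mul_sum]
    refine Finset.sum_congr rfl fun i _ => Finset.sum_congr rfl fun j _ => ?_
    rw [pow_add]
  rw [e2, e1]
  have h2 := CON_geom h0 h1 N
  have h3 : 0 ≤ ∑ i : Fin N, σ ^ (dd N (i : ℕ)) := Finset.sum_nonneg fun i _ => pow_nonneg h0.le _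
  refine pow_le_pow_left₀ (by positivity) ?_ 2
  exact mul_le_mul_of_nonneg_left h2 (Nat.cast_nonneg k)

/-- the block function -/
noncomputable def CON_blk {k : ℕ} (L N : ℕ) (P Q : ℕ × Fin k → ℕ × Fin k → ℂ) (p q : ℕ × Fin k) : ℂ :=
  if p.1 < L ∧ q.1 < L then P p q else
    if N - L ≤ p.1 ∧ N - L ≤ q.1 then Q (p.1 - (N - L), p.2) (q.1 - (N - L), q.2) else
    if p = q then 1 else 0

lemma CON_ent {k N : ℕ} (W : Matrix (Fin N × Fin k) (Fin N × Fin k) ℂ) (p q : Fin N × Fin k) :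
    ent W ((p.1 : ℕ), p.2) ((q.1 : ℕ), q.2) = W p q := by
  unfold ent
  rw [dif_pos ⟨p.1.2, q.1.2⟩]

lemma CON_one {k N : ℕ} (p q : Fin N × Fin k) :
    (1 : Matrix (Fin N × Fin k) (Fin N × Fin k) ℂ) p q =
      if (((p.1 : ℕ), p.2) : ℕ × Fin k) = ((q.1 : ℕ), q.2) then 1 else 0 := by
  rw [Matrix.one_apply]
  have : p = q ↔ (((p.1 : ℕ), p.2) : ℕ × Fin k) = ((q.1 : ℕ), q.2) := by
    rw [Prod.ext_iff, Prod.ext_iff, Fin.ext_iff]
  by_cases h : p = q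
  · rw [if_pos h, if_pos (this.mp h)]
  · rw [if_neg h, if_neg (fun h' => h (this.mpr h'))]

/-- the bounds of EXB for one `z`, with `σ = √ρ` -/
structure CON_B {X : Type} [TopologicalSpace X] (α : X ≃ₜ X) (k : ℕ) (E : X → ℤ × Fin k → ℤ × Fin k → ℂ)
    (z : ℂ) (C σ : ℝ) : Prop where
  s0 : 0 < σ
  s1 : σ < 1
  c0 : 0 ≤ C
  a1 : ∀ (x : X) (N : ℕ) (p q : ℕ × Fin k), p.1 < N → q.1 < N →
    ‖ent (vN E x N z) p q - (if p = q then 1 else 0)‖ ≤ C * σ ^ (2 * (dd N p.1 + dd N q.1))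
  a2 : ∀ (x : X) (N : ℕ) (p q : ℕ × Fin k), p.1 < N → q.1 < N →
    ‖ent (vN E x N z) p q - (if p = q then 1 else 0)‖ ≤ C * σ ^ (2 * nd p.1 q.1)
  b1 : ∀ (x : X) (M N : ℕ) (p q : ℕ × Fin k), M ≤ N → p.1 < M → q.1 < M →
    ‖ent (vN E x N z) p q - ent (vN E x M z) p q‖ ≤ C * σ ^ (2 * ((M - p.1) + (M - q.1)))
  b2 : ∀ (x : X) (M N : ℕ) (p q : ℕ × Fin k), M ≤ N → p.1 < M → q.1 < M →
    ‖ent (vN E x N z) (N - M + p.1, p.2) (N - M + q.1, q.2) -
      ent (vN E ((α ^ ((N - M : ℕ) : ℤ)) x) M z) p q‖ ≤ C * σ ^ (2 * ((p.1 + 1) + (q.1 + 1)))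

lemma CON_step {C σ : ℝ} (h0 : 0 < σ) (h1 : σ < 1) (hC : 0 ≤ C) {y : ℝ} {e f : ℕ} (h : y ≤ C * σ ^ e)
    (hef : f ≤ e) : y ≤ C * σ ^ f :=
  h.trans (mul_le_mul_of_nonneg_left (pow_le_pow_of_le_one h0.le h1.le hef) hC)

/-- entries of `V - W` -/
lemma CON_entry {X : Type} [TopologicalSpace X] {α : X ≃ₜ X} {k : ℕ} {E : X → ℤ × Fin k → ℤ × Fin k → ℂ}
    {z : ℂ} {C σ : ℝ} (hB : CON_B α k E z C σ) (x : X) (L N : ℕ) (hN : 4 * L ≤ N)
    (p q : ℕ × Fin k) (hp : p.1 < N) (hq : q.1 < N) :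
    ‖ent (vN E x N z) p q - CON_blk L N (fun p q => ent (vN E x (2 * L) z) p q)
      (fun p q => ent (vN E ((α ^ ((N - 2 * L : ℕ) : ℤ)) x) (2 * L) z) (L + p.1, p.2) (L + q.1, q.2)) p q‖ ≤
      C * σ ^ (L + (dd N p.1 + dd N q.1)) := by
  unfold CON_blk
  by_cases h1 : p.1 < L ∧ q.1 < L
  · rw [if_pos h1]
    refine CON_step hB.s0 hB.s1 hB.c0 (hB.b1 x (2 * L) N p q (by omega) (by omega) (by omega)) ?_
    have e1 : dd N p.1 ≤ p.1 + 1 := min_le_left _ _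
    have e2 : dd N q.1 ≤ q.1 + 1 := min_le_left _ _
    omega
  rw [if_neg h1]
  by_cases h2 : N - L ≤ p.1 ∧ N - L ≤ q.1
  · rw [if_pos h2]
    have e1 : dd N p.1 ≤ N - p.1 := min_le_right _ _
    have e2 : dd N q.1 ≤ N - q.1 := min_le_right _ _
    have h3 := hB.b2 x (2 * L) N (L + (p.1 - (N - L)), p.2) (L + (q.1 - (N - L)), q.2) (by omega)
      (by dsimp only; omega) (by dsimp only; omega)
    have e3 : N - 2 * L + (L + (p.1 - (N - L))) = p.1 := by omega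
    have e4 : N - 2 * L + (L + (q.1 - (N - L))) = q.1 := by omega
    dsimp only at h3
    rw [e3, e4] at h3
    refine CON_step hB.s0 hB.s1 hB.c0 h3 ?_
    omega
  · rw [if_neg h2]
    by_cases h3 : (L ≤ p.1 ∧ p.1 < N - L) ∨ (L ≤ q.1 ∧ q.1 < N - L)
    · refine CON_step hB.s0 hB.s1 hB.c0 (hB.a1 x N p q hp hq) ?_
      have hd : ∀ m : ℕ, L ≤ m → m < N - L → L ≤ dd N m := by
        intro m h4 h5
        unfold dd
        rw [le_min_iff]
        omega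
      rcases h3 with h3 | h3
      · have := hd _ h3.1 h3.2
        omega
      · have := hd _ h3.1 h3.2
        omega
    · refine CON_step hB.s0 hB.s1 hB.c0 (hB.a2 x N p q hp hq) ?_
      have e1 : dd N p.1 ≤ p.1 + 1 := min_le_left _ _
      have e2 : dd N q.1 ≤ q.1 + 1 := min_le_left _ _
      have e3 : dd N p.1 ≤ N - p.1 := min_le_right _ _
      have e4 : dd N q.1 ≤ N - q.1 := min_le_right _ _
      unfold nd
      omega

lemma CON_cont {X : Type} [TopologicalSpace X] {α : X ≃ₜ X} {k : ℕ} {E : X → ℤ × Fin k → ℤ × Fin k → ℂ}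
    (hK : Ker α k E) (N : ℕ) (z : ℂ) : Continuous (fun x => vN E x N z) := by
  have h1 : Continuous (fun x => z • aN E x N) := by
    refine Continuous.const_smul ?_ z
    refine continuous_matrix fun p q => ?_
    exact hK.cont _ _
  unfold vN
  open scoped Matrix.Norms.Operator in exact NormedSpace.exp_continuous.comp h1

lemma CON_entcont {X : Type} [TopologicalSpace X] {α : X ≃ₜ X} {k : ℕ} {E : X → ℤ × Fin k → ℤ × Fin k → ℂ}
    (hK : Ker α k E) (N : ℕ) (z : ℂ) (p q : ℕ × Fin k) : Continuous (fun x => ent (vN E x N z) p q) := by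
  unfold ent
  split_ifs with h
  · exact (CON_cont hK N z).matrix_elem _ _
  · exact continuous_const

/-- comparison of the determinants -/
lemma CON_det {X : Type} [TopologicalSpace X] {α : X ≃ₜ X} {k : ℕ} {E : X → ℤ × Fin k → ℤ × Fin k → ℂ}
    {z : ℂ} {C σ : ℝ} (hB : CON_B α k E z C σ) (h2 : DTP_stmt) (h4 : BLD_stmt) (x : X) (L N : ℕ)
    (hN : 4 * L ≤ N) :
    ‖(vN E x N z).det - (mat L (fun p q => ent (vN E x (2 * L) z) p q)).det *
      (mat L (fun p q : ℕ × Fin k => ent (vN E ((α ^ ((N - 2 * L : ℕ) : ℤ)) x) (2 * L) z)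
        (L + p.1, p.2) (L + q.1, q.2))).det‖ ≤
      σ ^ L * (C * ((k : ℝ) * (2 * (1 - σ)⁻¹)) ^ 2 * Real.exp (3 * (C * ((k : ℝ) * (2 * (1 - σ)⁻¹)) ^ 2))) := by
  set S : ℝ := ((k : ℝ) * (2 * (1 - σ)⁻¹)) ^ 2 with hS
  have hS0 : 0 ≤ S := sq_nonneg _
  set W : Matrix (Fin N × Fin k) (Fin N × Fin k) ℂ := mat N (CON_blk L N (fun p q => ent (vN E x (2 * L) z) p q)
      (fun p q => ent (vN E ((α ^ ((N - 2 * L : ℕ) : ℤ)) x) (2 * L) z) (L + p.1, p.2) (L + q.1, q.2))) with hW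
  have hWd := h4 k L N (fun p q => ent (vN E x (2 * L) z) p q)
      (fun p q => ent (vN E ((α ^ ((N - 2 * L : ℕ) : ℤ)) x) (2 * L) z) (L + p.1, p.2) (L + q.1, q.2)) (by omega)
  have hWd' : W.det = (mat L (fun p q => ent (vN E x (2 * L) z) p q)).det *
      (mat L (fun p q : ℕ × Fin k => ent (vN E ((α ^ ((N - 2 * L : ℕ) : ℤ)) x) (2 * L) z)
        (L + p.1, p.2) (L + q.1, q.2))).det := hWd
  rw [← hWd']
  set V := vN E x N z with hV
  have hc := CON_sum hB.s0 hB.s1 N k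
  rw [← hS] at hc
  have hVW : ∀ p q : Fin N × Fin k, ‖V p q - W p q‖ ≤ C * σ ^ (L + (dd N (p.1 : ℕ) + dd N (q.1 : ℕ))) := by
    intro p q
    have := CON_entry hB x L N hN ((p.1 : ℕ), p.2) ((q.1 : ℕ), q.2) p.1.2 q.1.2
    rw [CON_ent] at this
    exact this
  have hV1 : ∀ p q : Fin N × Fin k, ‖V p q - (1 : Matrix (Fin N × Fin k) (Fin N × Fin k) ℂ) p q‖ ≤
      C * σ ^ (dd N (p.1 : ℕ) + dd N (q.1 : ℕ)) := by
    intro p q
    have := hB.a1 x N ((p.1 : ℕ), p.2) ((q.1 : ℕ), q.2) p.1.2 q.1.2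
    rw [CON_ent, ← CON_one] at this
    exact CON_step hB.s0 hB.s1 hB.c0 this (by dsimp only; omega)
  have hsumVW : ∑ p, ∑ q, ‖V p q - W p q‖ ≤ σ ^ L * (C * S) := by
    calc ∑ p, ∑ q, ‖V p q - W p q‖ ≤ ∑ p : Fin N × Fin k, ∑ q : Fin N × Fin k,
          C * σ ^ L * σ ^ (dd N (p.1 : ℕ) + dd N (q.1 : ℕ)) := by
          refine Finset.sum_le_sum fun p _ => Finset.sum_le_sum fun q _ => (hVW p q).trans (le_of_eq ?_)
          rw [pow_add σ L]
          ring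
      _ = C * σ ^ L * ∑ p : Fin N × Fin k, ∑ q : Fin N × Fin k, σ ^ (dd N (p.1 : ℕ) + dd N (q.1 : ℕ)) := by
          rw [Finset.mul_sum]
          refine Finset.sum_congr rfl fun p _ => ?_
          rw [Finset.mul_sum]
      _ ≤ C * σ ^ L * S := mul_le_mul_of_nonneg_left hc (mul_nonneg hB.c0 (pow_nonneg hB.s0.le _))
      _ = σ ^ L * (C * S) := by ring
  have hsumV1 : ∑ p, ∑ q, ‖V p q - (1 : Matrix (Fin N × Fin k) (Fin N × Fin k) ℂ) p q‖ ≤ C * S := by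
    calc ∑ p, ∑ q, ‖V p q - (1 : Matrix (Fin N × Fin k) (Fin N × Fin k) ℂ) p q‖
        ≤ ∑ p : Fin N × Fin k, ∑ q : Fin N × Fin k, C * σ ^ (dd N (p.1 : ℕ) + dd N (q.1 : ℕ)) :=
          Finset.sum_le_sum fun p _ => Finset.sum_le_sum fun q _ => hV1 p q
      _ = C * ∑ p : Fin N × Fin k, ∑ q : Fin N × Fin k, σ ^ (dd N (p.1 : ℕ) + dd N (q.1 : ℕ)) := by
          rw [Finset.mul_sum]
          refine Finset.sum_congr rfl fun p _ => ?_
          rw [Finset.mul_sum]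
      _ ≤ C * S := mul_le_mul_of_nonneg_left hc hB.c0
  have hσL : σ ^ L ≤ 1 := pow_le_one₀ hB.s0.le hB.s1.le
  have hCS : 0 ≤ C * S := mul_nonneg hB.c0 hS0
  have hsumW1 : ∑ p, ∑ q, ‖W p q - (1 : Matrix (Fin N × Fin k) (Fin N × Fin k) ℂ) p q‖ ≤ 2 * (C * S) := by
    calc ∑ p, ∑ q, ‖W p q - (1 : Matrix (Fin N × Fin k) (Fin N × Fin k) ℂ) p q‖
        ≤ ∑ p, ∑ q, (‖V p q - W p q‖ + ‖V p q - (1 : Matrix (Fin N × Fin k) (Fin N × Fin k) ℂ) p q‖) := by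
          refine Finset.sum_le_sum fun p _ => Finset.sum_le_sum fun q _ => ?_
          have e : W p q - (1 : Matrix (Fin N × Fin k) (Fin N × Fin k) ℂ) p q =
              (V p q - (1 : Matrix (Fin N × Fin k) (Fin N × Fin k) ℂ) p q) - (V p q - W p q) := by ring
          rw [e, add_comm]
          exact norm_sub_le _ _
      _ = ∑ p, ∑ q, ‖V p q - W p q‖ +
          ∑ p, ∑ q, ‖V p q - (1 : Matrix (Fin N × Fin k) (Fin N × Fin k) ℂ) p q‖ := by
          rw [← Finset.sum_add_distrib]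
          refine Finset.sum_congr rfl fun p _ => ?_
          rw [Finset.sum_add_distrib]
      _ ≤ 2 * (C * S) := by nlinarith
  have hd := (h2 (Fin N × Fin k) (V - 1) (W - 1)).2
  have e1 : (1 : Matrix (Fin N × Fin k) (Fin N × Fin k) ℂ) + (V - 1) = V := by abel
  have e2 : (1 : Matrix (Fin N × Fin k) (Fin N × Fin k) ℂ) + (W - 1) = W := by abel
  rw [e1, e2] at hd
  simp only [Matrix.sub_apply, sub_sub_sub_cancel_right] at hd
  refine hd.trans ?_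
  have h5 : Real.exp ((∑ i, ∑ j, ‖V i j - (1 : Matrix (Fin N × Fin k) (Fin N × Fin k) ℂ) i j‖) +
      ∑ i, ∑ j, ‖W i j - (1 : Matrix (Fin N × Fin k) (Fin N × Fin k) ℂ) i j‖) ≤ Real.exp (3 * (C * S)) :=
    Real.exp_le_exp.mpr (by linarith)
  calc (∑ i, ∑ j, ‖V i j - W i j‖) * Real.exp ((∑ i, ∑ j, ‖V i j -
        (1 : Matrix (Fin N × Fin k) (Fin N × Fin k) ℂ) i j‖) +
        ∑ i, ∑ j, ‖W i j - (1 : Matrix (Fin N × Fin k) (Fin N × Fin k) ℂ) i j‖)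
      ≤ (σ ^ L * (C * S)) * Real.exp (3 * (C * S)) :=
        mul_le_mul hsumVW h5 (Real.exp_pos _).le (mul_nonneg (pow_nonneg hB.s0.le _) hCS)
    _ = σ ^ L * (C * S * Real.exp (3 * (C * S))) := by ring

theorem CON (h1 : EXB_stmt) (h2 : DTP_stmt) (h3 : DEX_stmt) (h4 : BLD_stmt) : CON_stmt := by
  intro X _ α k E hK x0 ε hε
  obtain ⟨C, ρ, hρ0, hρ1, hC, hE⟩ := h1 X α k E hK
  set z : ℂ := 2 * Real.pi * Complex.I with hz
  obtain ⟨hE1, hE2⟩ := hE z (Or.inl rfl)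
  have hs0 : 0 < Real.sqrt ρ := Real.sqrt_pos.mpr hρ0
  have hs1 : Real.sqrt ρ < 1 := by
    rw [Real.sqrt_lt' one_pos]
    simpa using hρ1
  have hsp : ∀ m : ℕ, Real.sqrt ρ ^ (2 * m) = ρ ^ m := fun m => by
    rw [pow_mul, Real.sq_sqrt hρ0.le]
  have hB : CON_B α k E z C (Real.sqrt ρ) := by
    refine ⟨hs0, hs1, hC, ?_, ?_, ?_, ?_⟩
    · intro x N p q hp hq
      rw [hsp]
      exact (hE1 x N p q hp hq).1
    · intro x N p q hp hq
      rw [hsp]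
      exact (hE1 x N p q hp hq).2
    · intro x M N p q h hp hq
      rw [hsp]
      exact (hE2 x M N p q h hp hq).1
    · intro x M N p q h hp hq
      rw [hsp]
      exact (hE2 x M N p q h hp hq).2
  set σ : ℝ := Real.sqrt ρ with hσ
  set K : ℝ := C * ((k : ℝ) * (2 * (1 - σ)⁻¹)) ^ 2 *
    Real.exp (3 * (C * ((k : ℝ) * (2 * (1 - σ)⁻¹)) ^ 2)) with hKdef
  have hK0 : 0 ≤ K := mul_nonneg (mul_nonneg hC (sq_nonneg _)) (Real.exp_pos _).le
  obtain ⟨L, hL⟩ := exists_pow_lt_of_lt_one (show 0 < ε / (K + 1) by positivity) hs1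
  have hfin : σ ^ L * K ≤ ε := by
    rw [lt_div_iff₀ (by linarith)] at hL
    have : 0 ≤ σ ^ L := pow_nonneg hs0.le _
    nlinarith
  refine ⟨⟨fun y => (mat L (fun p q => ent (vN E x0 (2 * L) z) p q)).det *
      (mat L (fun p q : ℕ × Fin k => ent (vN E ((α ^ (-(2 * L : ℕ) : ℤ)) y) (2 * L) z)
        (L + p.1, p.2) (L + q.1, q.2))).det, ?_⟩, 4 * L, fun N hN => ?_⟩
  · refine continuous_const.mul (Continuous.matrix_det ?_)
    refine continuous_matrix fun p q => ?_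
    unfold mat
    exact (CON_entcont hK (2 * L) z _ _).comp (α ^ (-(2 * L : ℕ) : ℤ)).continuous
  · have hd := CON_det hB h2 h4 x0 L N hN
    have e1 : (vN E x0 N z).det =
        Complex.exp (2 * Real.pi * Complex.I * ∑ m ∈ Finset.range N, trE E ((α ^ (m : ℤ)) x0)) := by
      unfold vN
      rw [h3, Matrix.trace_smul, CON_trace hK, smul_eq_mul]
    have e2 : (α ^ (-(2 * L : ℕ) : ℤ)) ((α ^ (N : ℤ)) x0) = (α ^ ((N - 2 * L : ℕ) : ℤ)) x0 := by
      rw [← Homeomorph.mul_apply, ← zpow_add]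
      congr 2
      push_cast [Nat.cast_sub (show 2 * L ≤ N by omega)]
      ring
    rw [e1] at hd
    refine le_trans (le_of_eq ?_) (hd.trans hfin)
    rw [ContinuousMap.coe_mk, e2]

end Pool.Agent.CZ
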